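import Mathlib

open Set Topology Filter

namespace MP5e9a16

/-- `𝓑` is a pseudobase of `X`: members have nonempty interior and every nonempty open set
contains a member. -/
def IsPseudobase (X : Type*) [TopologicalSpace X] (𝓑 : Set (Set X)) : Prop :=
  (∀ B ∈ 𝓑, (interior B).Nonempty) ∧ ∀ U : Set X, IsOpen U → U.Nonempty → ∃ B ∈ 𝓑, B ⊆ U

/-- Todd pseudocompleteness: there is a complete sequence of pseudobases. -/
def ToddPseudocomplete (X : Type*) [TopologicalSpace X] : Prop :=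
  ∃ 𝓑 : ℕ → Set (Set X), (∀ n, IsPseudobase X (𝓑 n)) ∧
    ∀ B : ℕ → Set X, (∀ n, B n ∈ 𝓑 n) → (∀ n, closure (B (n + 1)) ⊆ interior (B n)) →
      (⋂ n, B n).Nonempty

section PartA

variable {G C : Type*} [TopologicalSpace G] [MetricSpace C] (q : G → C)

/-- a good family of pairs -/
structure Good (𝒮 : Set (Set C × Set G)) : Prop where
  open1 : ∀ p ∈ 𝒮, IsOpen p.1
  open2 : ∀ p ∈ 𝒮, IsOpen p.2
  sub : ∀ p ∈ 𝒮, p.1 ⊆ closure (q '' p.2)
  disj : ∀ p ∈ 𝒮, ∀ p' ∈ 𝒮, p ≠ p' → Disjoint p.1 p'.1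
  dense : Dense (⋃ p ∈ 𝒮, p.1)

/-- the child relation at level `n` -/
def Child (𝓑 : ℕ → Set (Set G)) (n : ℕ) (p' p : Set C × Set G) : Prop :=
  p'.1 ⊆ p.1 ∧ ∃ B ∈ 𝓑 n, p'.2 = interior B ∧ closure B ⊆ p.2 ∧
    ∀ x ∈ B, ∀ y ∈ B, dist (q x) (q y) ≤ 1 / ((n : ℝ) + 1)

theorem step [RegularSpace G] (hq : Continuous q)
    (hSD : ∀ O : Set G, IsOpen O → O.Nonempty → (interior (closure (q '' O))).Nonempty)
    (𝓑 : ℕ → Set (Set G)) (h𝓑 : ∀ n, IsPseudobase G (𝓑 n)) (n : ℕ)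
    (𝒮 : Set (Set C × Set G)) (h𝒮 : Good q 𝒮) :
    ∃ 𝒮' : Set (Set C × Set G), Good q 𝒮' ∧ ∀ p' ∈ 𝒮', ∃ p ∈ 𝒮, Child q 𝓑 n p' p := by
  -- the candidates
  set 𝒬 : Set (Set C × Set G) := {p' | IsOpen p'.1 ∧ p'.1.Nonempty ∧ IsOpen p'.2 ∧
    p'.1 ⊆ closure (q '' p'.2) ∧ ∃ p ∈ 𝒮, Child q 𝓑 n p' p} with h𝒬
  set 𝒵 : Set (Set (Set C × Set G)) := {𝒯 | 𝒯 ⊆ 𝒬 ∧
    ∀ p ∈ 𝒯, ∀ p' ∈ 𝒯, p ≠ p' → Disjoint p.1 p'.1} with h𝒵
  obtain ⟨𝒯, h𝒯⟩ : ∃ 𝒯, Maximal (fun 𝒯 => 𝒯 ∈ 𝒵) 𝒯 := by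
    apply zorn_subset
    intro c hc hchain
    refine ⟨⋃₀ c, ⟨?_, ?_⟩, fun s hs => subset_sUnion_of_mem hs⟩
    · intro p hp
      obtain ⟨s, hs, hps⟩ := hp
      exact (hc hs).1 hps
    · rintro p ⟨s, hs, hps⟩ p' ⟨s', hs', hps'⟩ hne
      rcases hchain.total hs hs' with h | h
      · exact (hc hs').2 p (h hps) p' hps' hne
      · exact (hc hs).2 p hps p' (h hps') hne
  have h𝒯𝒵 : 𝒯 ∈ 𝒵 := h𝒯.prop
  refine ⟨𝒯, ⟨fun p hp => (h𝒯𝒵.1 hp).1, fun p hp => (h𝒯𝒵.1 hp).2.2.1,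
    fun p hp => (h𝒯𝒵.1 hp).2.2.2.1, h𝒯𝒵.2, ?_⟩, fun p hp => (h𝒯𝒵.1 hp).2.2.2.2⟩
  -- density
  rw [dense_iff_inter_open]
  intro W hW hWne
  by_contra hcon
  rw [not_nonempty_iff_eq_empty] at hcon
  -- pick a parent
  obtain ⟨c, hcW, hc⟩ := (dense_iff_inter_open.1 h𝒮.dense) W hW hWne
  obtain ⟨p, hp, hcp⟩ := mem_iUnion₂.1 hc
  have hWp : IsOpen (W ∩ p.1) := hW.inter (h𝒮.open1 p hp)
  have hccl : c ∈ closure (q '' p.2) := h𝒮.sub p hp hcp
  obtain ⟨_, hy, x, hx, rfl⟩ := mem_closure_iff.1 hccl (W ∩ p.1) hWp ⟨hcW, hcp⟩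
  -- small open set
  set V : Set G := p.2 ∩ q ⁻¹' (W ∩ p.1) ∩ q ⁻¹' (Metric.ball (q x) (1 / (2 * ((n : ℝ) + 1))))
    with hV
  have hVo : IsOpen V := ((h𝒮.open2 p hp).inter (hWp.preimage hq)).inter
    (Metric.isOpen_ball.preimage hq)
  have hxV : x ∈ V := ⟨⟨hx, hy⟩, Metric.mem_ball_self (by positivity)⟩
  obtain ⟨K, hK, hKc, hKV⟩ := exists_mem_nhds_isClosed_subset (hVo.mem_nhds hxV)
  obtain ⟨B, hB, hBK⟩ := (h𝓑 n).2 (interior K) isOpen_interior ⟨x, mem_interior_iff_mem_nhds.2 hK⟩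
  have hBV : closure B ⊆ V := (closure_minimal (hBK.trans interior_subset) hKc).trans hKV
  have hiB : (interior B).Nonempty := (h𝓑 n).1 B hB
  have hSD' := hSD (interior B) isOpen_interior hiB
  set O' : Set C := interior (closure (q '' interior B)) ∩ (W ∩ p.1) with hO'
  have hO'o : IsOpen O' := isOpen_interior.inter hWp
  have hO'ne : O'.Nonempty := by
    obtain ⟨y, hy⟩ := hSD'
    obtain ⟨_, hz, w, hw, rfl⟩ := mem_closure_iff.1 (interior_subset hy) _ isOpen_interior hy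
    exact ⟨q w, hz, (hBV (subset_closure (interior_subset hw))).1.2⟩
  have hnew : ((O', interior B) : Set C × Set G) ∈ 𝒬 := by
    refine ⟨hO'o, hO'ne, isOpen_interior, fun y hy => interior_subset hy.1, p, hp, ?_, B, hB, rfl,
      ?_, ?_⟩
    · exact fun y hy => hy.2.2
    · exact fun y hy => (hBV hy).1.1
    · intro a ha b hb
      have h1 := (hBV (subset_closure ha)).2
      have h2 := (hBV (subset_closure hb)).2
      simp only [mem_preimage, Metric.mem_ball] at h1 h2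
      have h3 : dist (q a) (q b) ≤ dist (q a) (q x) + dist (q b) (q x) := dist_triangle_right _ _ _
      have h4 : 1 / (2 * ((n : ℝ) + 1)) + 1 / (2 * ((n : ℝ) + 1)) = 1 / ((n : ℝ) + 1) := by
        field_simp; norm_num
      linarith
  have hdisjW : ∀ p' ∈ 𝒯, Disjoint p'.1 W := by
    intro p' hp'
    rw [Set.disjoint_left]
    intro y hy hyW
    have : y ∈ W ∩ ⋃ p ∈ 𝒯, p.1 := ⟨hyW, mem_iUnion₂.2 ⟨p', hp', hy⟩⟩
    rw [hcon] at this
    exact this
  have hins : insert ((O', interior B) : Set C × Set G) 𝒯 ∈ 𝒵 := by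
    refine ⟨insert_subset hnew h𝒯𝒵.1, ?_⟩
    intro a ha b hb hne
    rcases mem_insert_iff.1 ha with rfl | ha'
    · rcases mem_insert_iff.1 hb with rfl | hb'
      · exact absurd rfl hne
      · exact ((hdisjW b hb').mono_right (fun y hy => hy.2.1)).symm
    · rcases mem_insert_iff.1 hb with rfl | hb'
      · exact (hdisjW a ha').mono_right (fun y hy => hy.2.1)
      · exact h𝒯𝒵.2 a ha' b hb' hne
  have hmem : ((O', interior B) : Set C × Set G) ∈ 𝒯 :=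
    h𝒯.le_of_ge hins (subset_insert _ _) (mem_insert _ _)
  obtain ⟨y, hy⟩ := hO'ne
  exact (Set.disjoint_left.1 (hdisjW _ hmem)) hy hy.2.1

theorem residual_range [RegularSpace G] (hq : Continuous q) (hdense : DenseRange q)
    (hSD : ∀ O : Set G, IsOpen O → O.Nonempty → (interior (closure (q '' O))).Nonempty)
    (hT : ToddPseudocomplete G) : range q ∈ residual C := by
  obtain ⟨𝓑, h𝓑, hcomp⟩ := hT
  have h0 : Good q ({(univ, univ)} : Set (Set C × Set G)) := by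
    refine ⟨?_, ?_, ?_, ?_, ?_⟩
    · rintro p rfl; exact isOpen_univ
    · rintro p rfl; exact isOpen_univ
    · rintro p rfl x _
      simp only [image_univ]
      exact hdense x
    · rintro p rfl p' rfl h; exact absurd rfl h
    · simp
  choose! f hf1 hf2 using step q hq hSD 𝓑 h𝓑
  let S : ℕ → Set (Set C × Set G) := fun n => Nat.rec {(univ, univ)} (fun k s => f k s) n
  have hS0 : S 0 = {(univ, univ)} := rfl
  have hSs : ∀ n, S (n + 1) = f n (S n) := fun n => rfl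
  have hgood : ∀ n, Good q (S n) := by
    intro n
    induction n with
    | zero => exact h0
    | succ k ih => rw [hSs]; exact hf1 k _ ih
  have hchild : ∀ n, ∀ p' ∈ S (n + 1), ∃ p ∈ S n, Child q 𝓑 n p' p := by
    intro n; rw [hSs]; exact hf2 n _ (hgood n)
  have hres : (⋂ n, ⋃ p ∈ S n, p.1) ∈ residual C := by
    rw [countable_iInter_mem]
    intro n
    exact residual_of_dense_open (isOpen_biUnion (hgood n).open1) (hgood n).dense
  refine mem_of_superset hres ?_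
  intro c hc
  rw [mem_iInter] at hc
  have hc' : ∀ n, ∃ p ∈ S n, c ∈ p.1 := by
    intro n
    obtain ⟨p, hp, hcp⟩ := mem_iUnion₂.1 (hc n)
    exact ⟨p, hp, hcp⟩
  choose p hp hcp using hc'
  have hpar : ∀ n, Child q 𝓑 n (p (n + 1)) (p n) := by
    intro n
    obtain ⟨r, hr, hch⟩ := hchild n (p (n + 1)) (hp (n + 1))
    have : r = p n := by
      by_contra hne
      exact (Set.disjoint_left.1 ((hgood n).disj r hr (p n) (hp n) hne)) (hch.1 (hcp (n + 1)))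
        (hcp n)
    rwa [this] at hch
  choose hsub B hB hBi hBc hBd using hpar
  obtain ⟨g, hg⟩ := hcomp B hB (fun n => by
    rw [← hBi n]; exact hBc (n + 1))
  rw [mem_iInter] at hg
  refine ⟨g, ?_⟩
  have hle : ∀ n : ℕ, dist (q g) c ≤ 1 / ((n : ℝ) + 1) := by
    intro n
    have h1 : c ∈ closure (q '' (p (n + 1)).2) := (hgood (n + 1)).sub _ (hp (n + 1)) (hcp (n + 1))
    rw [hBi n] at h1
    have h2 : closure (q '' interior (B n)) ⊆ Metric.closedBall (q g) (1 / ((n : ℝ) + 1)) := by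
      apply closure_minimal _ Metric.isClosed_closedBall
      rintro _ ⟨x, hx, rfl⟩
      exact hBd n x (interior_subset hx) g (hg n)
    rw [dist_comm]
    exact h2 h1
  have hzero : dist (q g) c ≤ 0 :=
    ge_of_tendsto' tendsto_one_div_add_atTop_nhds_zero_nat hle
  exact dist_le_zero.1 hzero

end PartA

end MP5e9a16
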