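import Pool.Agent.Q181.Todd.PartA

open Set Topology Filter

namespace MP5e9a16

section PartB

open UniformSpace

/-- The somewhere-density property of the composite of a projection with the completion map. -/
theorem sd_property {I : Type*} (H : I → Type*) [∀ i, TopologicalSpace (H i)]
    (G : Set (∀ i, H i)) (hG : Dense G) (j : I) {C : Type*} [TopologicalSpace C]
    (e : H j → C) (he : IsDenseEmbedding e) (O : Set G) (hO : IsOpen O) (hOne : O.Nonempty) :
    (interior (closure ((fun g : G => e (g.1 j)) '' O))).Nonempty := by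
  obtain ⟨W, hW, rfl⟩ := isOpen_induced_iff.1 hO
  have hWne : W.Nonempty := by
    obtain ⟨g, hg⟩ := hOne
    exact ⟨g.1, hg⟩
  have hpW : IsOpen ((fun f : ∀ i, H i => f j) '' W) := isOpenMap_eval j W hW
  obtain ⟨V, hV, hVe⟩ := he.isInducing.isOpen_iff.1 hpW
  have hVne : V.Nonempty := by
    obtain ⟨f, hf⟩ := hWne
    have : f j ∈ e ⁻¹' V := by rw [hVe]; exact ⟨f, hf, rfl⟩
    exact ⟨_, this⟩
  have key : V ⊆ closure ((fun g : G => e (g.1 j)) '' (Subtype.val ⁻¹' W)) := by
    have h1 : V ⊆ closure (e '' (e ⁻¹' V)) := by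
      rw [image_preimage_eq_inter_range]
      exact he.dense.open_subset_closure_inter hV
    refine h1.trans (closure_minimal ?_ isClosed_closure)
    rw [hVe]
    rintro _ ⟨_, ⟨f, hf, rfl⟩, rfl⟩
    have h2 : f ∈ closure (W ∩ G) := hG.open_subset_closure_inter hW hf
    have hcont : Continuous (fun f : ∀ i, H i => e (f j)) := he.continuous.comp (continuous_apply j)
    have h3 : e (f j) ∈ closure ((fun f : ∀ i, H i => e (f j)) '' (W ∩ G)) :=
      image_closure_subset_closure_image hcont ⟨f, h2, rfl⟩
    refine closure_mono ?_ h3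
    rintro _ ⟨f', ⟨hf'W, hf'G⟩, rfl⟩
    exact ⟨⟨f', hf'G⟩, hf'W, rfl⟩
  exact hVne.mono (interior_maximal key hV)

end PartB

section PartC

open UniformSpace Completion TopologicalSpace

variable {H : Type*} [Group H] [MetricSpace H] [IsTopologicalGroup H]

theorem unif_iff (hU : uniformity H = comap (fun p : H × H => p.2 * p.1⁻¹) (𝓝 1)) (x : ℕ → H)
    (hx : CauchySeq x) (ε : ℝ) (hε : 0 < ε) :
    ∃ N, ∀ m ≥ N, ∀ n ≥ N, ∀ a : H, dist (x m * a) (x n * a) < ε := by
  have h1 : {p : H × H | dist p.1 p.2 < ε} ∈ uniformity H := Metric.dist_mem_uniformity hε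
  rw [hU, mem_comap] at h1
  obtain ⟨W, hW, hWs⟩ := h1
  have h2 : {p : H × H | p.2 * p.1⁻¹ ∈ W} ∈ uniformity H := by
    rw [hU]; exact ⟨W, hW, fun p hp => hp⟩
  obtain ⟨N, hN⟩ := (cauchySeq_iff.1 hx) _ h2
  refine ⟨N, fun m hm n hn a => ?_⟩
  have h3 : x n * (x m)⁻¹ ∈ W := hN m hm n hn
  have h4 : ((x m * a, x n * a) : H × H) ∈ {p : H × H | dist p.1 p.2 < ε} := by
    apply hWs
    simp only [mem_preimage, mul_inv_rev]
    have : x n * a * (a⁻¹ * (x m)⁻¹) = x n * (x m)⁻¹ := by group
    rw [this]
    exact h3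
  exact h4

theorem uc_left (hU : uniformity H = comap (fun p : H × H => p.2 * p.1⁻¹) (𝓝 1)) (x : H) :
    UniformContinuous (fun a : H => x * a) := by
  have hcont : Tendsto (fun y : H => x * y * x⁻¹) (𝓝 1) (𝓝 1) := by
    have : Continuous (fun y : H => x * y * x⁻¹) := by fun_prop
    have h := this.tendsto 1
    simpa using h
  unfold UniformContinuous
  rw [hU, tendsto_comap_iff]
  have : ((fun p : H × H => p.2 * p.1⁻¹) ∘ fun p : H × H => (x * p.1, x * p.2)) =
      (fun y : H => x * y * x⁻¹) ∘ (fun p : H × H => p.2 * p.1⁻¹) := by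
    funext p; simp [mul_assoc]
  rw [this]
  exact hcont.comp tendsto_comap

/-- the extended left translations converge uniformly. -/
theorem exists_limit (hU : uniformity H = comap (fun p : H × H => p.2 * p.1⁻¹) (𝓝 1)) (x : ℕ → H)
    (hx : CauchySeq x) :
    ∃ F : Completion H → Completion H, Continuous F ∧
      ∀ ε > 0, ∃ N, ∀ n ≥ N, ∀ c, dist (Completion.map (fun a => x n * a) c) (F c) ≤ ε := by
  have hunif : ∀ ε > 0, ∃ N, ∀ m ≥ N, ∀ n ≥ N, ∀ c : Completion H,
      dist (Completion.map (fun a => x m * a) c) (Completion.map (fun a => x n * a) c) ≤ ε := by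
    intro ε hε
    obtain ⟨N, hN⟩ := unif_iff hU x hx ε hε
    refine ⟨N, fun m hm n hn c => ?_⟩
    induction c using Completion.induction_on with
    | hp =>
      exact isClosed_le (Continuous.dist continuous_map continuous_map) continuous_const
    | ih a =>
      rw [map_coe (uc_left hU _), map_coe (uc_left hU _), Completion.dist_eq]
      exact (hN m hm n hn a).le
  have hlim : ∀ c : Completion H, ∃ d, Tendsto (fun n => Completion.map (fun a => x n * a) c) atTop (𝓝 d) := by
    intro c
    apply cauchySeq_tendsto_of_complete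
    rw [Metric.cauchySeq_iff]
    intro ε hε
    obtain ⟨N, hN⟩ := hunif (ε / 2) (half_pos hε)
    exact ⟨N, fun m hm n hn => (hN m hm n hn c).trans_lt (half_lt_self hε)⟩
  choose F hF using hlim
  have hFunif : ∀ ε > 0, ∃ N, ∀ n ≥ N, ∀ c, dist (Completion.map (fun a => x n * a) c) (F c) ≤ ε := by
    intro ε hε
    obtain ⟨N, hN⟩ := hunif ε hε
    refine ⟨N, fun n hn c => ?_⟩
    refine le_of_tendsto (tendsto_const_nhds.dist (hF c)) ?_
    filter_upwards [eventually_ge_atTop N] with m hm
    exact hN n hn m hm c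
  refine ⟨F, ?_, hFunif⟩
  have hTU : TendstoUniformly (fun n => Completion.map (fun a => x n * a)) F atTop := by
    rw [Metric.tendstoUniformly_iff]
    intro ε hε
    obtain ⟨N, hN⟩ := hFunif (ε / 2) (half_pos hε)
    filter_upwards [eventually_ge_atTop N] with n hn c
    rw [dist_comm]
    exact (hN n hn c).trans_lt (half_lt_self hε)
  exact hTU.continuous (Frequently.of_forall fun n => continuous_map)

theorem comp_limit (hU : uniformity H = comap (fun p : H × H => p.2 * p.1⁻¹) (𝓝 1)) (x : ℕ → H)
    (F F' : Completion H → Completion H) (hFc : Continuous F')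
    (hF : ∀ ε > 0, ∃ N, ∀ n ≥ N, ∀ c, dist (Completion.map (fun a => x n * a) c) (F c) ≤ ε)
    (hF' : ∀ ε > 0, ∃ N, ∀ n ≥ N, ∀ c, dist (Completion.map (fun a => (x n)⁻¹ * a) c) (F' c) ≤ ε)
    (c : Completion H) : F' (F c) = c := by
  have h1 : Tendsto (fun n => Completion.map (fun a => x n * a) c) atTop (𝓝 (F c)) := by
    rw [Metric.tendsto_atTop]
    intro ε hε
    obtain ⟨N, hN⟩ := hF (ε / 2) (half_pos hε)
    exact ⟨N, fun n hn => (hN n hn c).trans_lt (half_lt_self hε)⟩
  have h2 : Tendsto (fun n => F' (Completion.map (fun a => x n * a) c)) atTop (𝓝 (F' (F c))) :=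
    (hFc.tendsto _).comp h1
  have h3 : ∀ n, Completion.map (fun a => (x n)⁻¹ * a) (Completion.map (fun a => x n * a) c) = c := by
    intro n
    have := congrFun (Completion.map_comp (uc_left hU (x n)⁻¹) (uc_left hU (x n))) c
    simp only [Function.comp_apply] at this
    rw [this]
    have h4 : ((fun a => (x n)⁻¹ * a) ∘ fun a => x n * a) = (id : H → H) := by
      funext a; simp
    rw [h4, Completion.map_id]
    rfl
  have h5 : Tendsto (fun n => F' (Completion.map (fun a => x n * a) c)) atTop (𝓝 c) := by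
    rw [Metric.tendsto_atTop]
    intro ε hε
    obtain ⟨N, hN⟩ := hF' (ε / 2) (half_pos hε)
    refine ⟨N, fun n hn => ?_⟩
    have := hN n hn (Completion.map (fun a => x n * a) c)
    rw [h3 n, dist_comm] at this
    exact this.trans_lt (half_lt_self hε)
  exact tendsto_nhds_unique h2 h5

theorem key_convergence (hU : uniformity H = comap (fun p : H × H => p.2 * p.1⁻¹) (𝓝 1))
    (hres : range ((↑) : H → Completion H) ∈ residual (Completion H)) (x : ℕ → H)
    (hx : CauchySeq x) (hx' : CauchySeq (fun n => (x n)⁻¹)) : ∃ y, Tendsto x atTop (𝓝 y) := by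
  obtain ⟨F, hFc, hF⟩ := exists_limit hU x hx
  obtain ⟨F', hFc', hF'⟩ := exists_limit hU _ hx'
  have h1 : ∀ c, F' (F c) = c := comp_limit hU x F F' hFc' hF hF'
  have h2 : ∀ c, F (F' c) = c := by
    apply comp_limit hU (fun n => (x n)⁻¹) F' F hFc hF'
    simpa using hF
  let Φ : Completion H ≃ₜ Completion H :=
    { toFun := F, invFun := F', left_inv := h1, right_inv := h2, continuous_toFun := hFc,
      continuous_invFun := hFc' }
  have h3 : F ⁻¹' (range ((↑) : H → Completion H)) ∈ residual (Completion H) := by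
    have h4 : IsMeagre (range ((↑) : H → Completion H))ᶜ := by
      rw [IsMeagre, compl_compl]; exact hres
    have h5 := h4.preimage_of_isOpenMap hFc Φ.isOpenMap
    rw [IsMeagre, preimage_compl, compl_compl] at h5
    exact h5
  have h6 := dense_of_mem_residual (inter_mem hres h3)
  have : Nonempty (Completion H) := ⟨((1 : H) : Completion H)⟩
  obtain ⟨c, ⟨a, ha⟩, ⟨b, hb⟩⟩ := h6.nonempty
  subst ha
  have h7 : Tendsto (fun n => ((x n * a : H) : Completion H)) atTop (𝓝 (b : Completion H)) := by
    rw [Metric.tendsto_atTop]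
    intro ε hε
    obtain ⟨N, hN⟩ := hF (ε / 2) (half_pos hε)
    refine ⟨N, fun n hn => ?_⟩
    have := hN n hn (a : Completion H)
    rw [map_coe (uc_left hU _), ← hb] at this
    exact this.trans_lt (half_lt_self hε)
  have h8 : Tendsto (fun n => x n * a) atTop (𝓝 b) :=
    (Completion.isUniformInducing_coe H).isInducing.tendsto_nhds_iff.2 h7
  refine ⟨b * a⁻¹, ?_⟩
  have h9 := h8.mul_const (a⁻¹)
  simpa using h9

theorem cauchySeq_of_coe (x : ℕ → H) (h : CauchySeq (fun n => ((x n : H) : Completion H))) :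
    CauchySeq x := by
  rw [Metric.cauchySeq_iff] at h ⊢
  intro ε hε
  obtain ⟨N, hN⟩ := h ε hε
  exact ⟨N, fun m hm n hn => by
    have := hN m hm n hn
    rwa [Completion.dist_eq] at this⟩

theorem completely_metrizable (hU : uniformity H = comap (fun p : H × H => p.2 * p.1⁻¹) (𝓝 1))
    (hres : range ((↑) : H → Completion H) ∈ residual (Completion H)) :
    IsCompletelyMetrizableSpace H := by
  let j : H → Completion H × Completion H := fun x => ((x : Completion H), ((x⁻¹ : H) : Completion H))
  have hjc : Continuous j :=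
    (continuous_coe H).prodMk ((continuous_coe H).comp continuous_inv)
  have hemb : IsEmbedding j := by
    have h1 : IsEmbedding (Prod.fst ∘ j) := (Completion.isUniformEmbedding_coe H).isEmbedding
    exact h1.of_comp hjc continuous_fst
  have hcl : IsClosed (range j) := by
    rw [← isSeqClosed_iff_isClosed]
    intro y z hy hyz
    choose x hx using hy
    have e1 : Tendsto (fun n => ((x n : H) : Completion H)) atTop (𝓝 z.1) := by
      have := (continuous_fst.tendsto z).comp hyz
      refine this.congr fun n => ?_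
      simp [← hx n, j]
    have e2 : Tendsto (fun n => (((x n)⁻¹ : H) : Completion H)) atTop (𝓝 z.2) := by
      have := (continuous_snd.tendsto z).comp hyz
      refine this.congr fun n => ?_
      simp [← hx n, j]
    have c1 : CauchySeq x := cauchySeq_of_coe x e1.cauchySeq
    have c2 : CauchySeq (fun n => (x n)⁻¹) :=
      cauchySeq_of_coe _ e2.cauchySeq
    obtain ⟨w, hw⟩ := key_convergence hU hres x c1 c2
    refine ⟨w, ?_⟩
    have e3 : Tendsto (fun n => j (x n)) atTop (𝓝 (j w)) := (hjc.tendsto w).comp hw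
    have e4 : Tendsto (fun n => j (x n)) atTop (𝓝 z) := by
      simpa only [hx] using hyz
    exact tendsto_nhds_unique e3 e4
  exact IsClosedEmbedding.IsCompletelyMetrizableSpace ⟨hemb, hcl⟩

end PartC

end MP5e9a16
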